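import Mathlib
import Pool.Agent.H437R2.A2
import Pool.Agent.H307R2.LU

/-!
Interface for an unconditional proof that short intervals `(y, y + y^θ]` contain many primes
(Hoheisel), using only the classical zero-free region and a mollifier.
-/

set_option autoImplicit false

open Finset Filter

namespace Pool.Agent.H369Z.Hoh

open Pool.Agent.H437R2

noncomputable section

/-- T1. Classical zero-free region with the bound for the logarithmic derivative.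
Here `ell t = log (|t| + 3)` and `riemannZeta₁ s = (s - 1) ζ(s)`. -/
def S_ZFR : Prop := ∃ c C : ℝ, 0 < c ∧ c ≤ 1 / 4 ∧ 0 < C ∧ ∀ s : ℂ,
  1 - c / ell s.im ≤ s.re → s.re ≤ 2 →
    riemannZeta₁ s ≠ 0 ∧ ‖deriv riemannZeta₁ s / riemannZeta₁ s‖ ≤ C * ell s.im

/-- the sieve weight `μ(d) (R^δ - d^δ)` -/
def wt (δ R : ℝ) (d : ℕ) : ℝ :=
  ((ArithmeticFunction.moebius d : ℤ) : ℝ) * (R ^ δ - (d : ℝ) ^ δ)

/-- the bilinear form of the weights -/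
def QF (δ α R R' : ℝ) : ℝ :=
  ∑ d ∈ Icc 1 ⌊R⌋₊, ∑ e ∈ Icc 1 ⌊R'⌋₊, wt δ R d * wt δ R' e * ((Nat.lcm d e : ℕ) : ℝ) ^ (-α)

/-- T2. Diagonalisation bound for the bilinear form. -/
def S_QF : Prop := ∃ C : ℝ, 0 < C ∧ ∀ δ R R' α : ℝ, 0 < δ → δ ≤ 1 / 2 → 1 ≤ R → 1 ≤ R' →
  (α = 1 ∨ α = 1 + δ) → |QF δ α R R'| ≤ C * (R * R') ^ (3 * δ) * δ ^ 2 * (1 + Real.log R)

/-- the truncated divisor sum of the weights -/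
def LR (δ R : ℝ) (n : ℕ) : ℝ := ∑ d ∈ (Icc 1 ⌊R⌋₊).filter (fun d => d ∣ n), wt δ R d

/-- coefficients (not normalised) of `ζ(s) M(s)` -/
def cc (L : ℝ) (n : ℕ) : ℝ :=
  (LR (1 / L) (Real.exp (5 * L)) n - LR (1 / L) (Real.exp (4 * L)) n) * LR (1 / L) (Real.exp L) n

/-- T3a. Log-free mean square of the Dirichlet polynomial. -/
def S_DP : Prop := ∃ C : ℝ, 0 < C ∧ ∀ L T σ : ℝ, 4 ≤ L → 1 ≤ T → T ≤ Real.exp L → 1 - 1 / L ≤ σ →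
  σ ≤ 1 → ∫ t : ℝ, ‖∑ n ∈ Ioc ⌊Real.exp (4 * L)⌋₊ ⌊Real.exp (20 * L)⌋₊,
    ((cc L n : ℝ) : ℂ) * (n : ℂ) ^ (-((σ : ℂ) + t * Complex.I))‖ ^ 2 *
      Real.exp (-(t ^ 2 / T ^ 2)) ≤ C / L

/-- T3. A mollifier with a log-free mean square slightly to the left of `Re s = 1`. -/
def S_MOL : Prop := ∃ C : ℝ, 0 < C ∧ ∀ L : ℝ, 4 ≤ L → ∃ M : ℂ → ℂ, Differentiable ℂ M ∧
  (∀ s : ℂ, 0 ≤ s.re → ‖M s‖ ≤ C * Real.exp (6 * L)) ∧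
  ∀ a T H : ℝ, 0 < a → a ≤ 1 / L → 1 ≤ T → T ≤ Real.exp L → 0 ≤ H → H ≤ Real.exp (2 * L) →
    ∫ t in (-H)..H, ‖riemannZeta (((1 - a : ℝ) : ℂ) + t * Complex.I) *
      M (((1 - a : ℝ) : ℂ) + t * Complex.I) - 1‖ ^ 2 * Real.exp (-(t ^ 2 / T ^ 2)) ≤ C / (L ^ 2 * a)

/-- T4. Gaussian-weighted sums of the von Mangoldt function in short windows. -/
def S_MAIN : Prop := ∃ u : ℝ, 5 ≤ u ∧ ∀ᶠ X : ℝ in atTop, ∀ T : ℝ, 1 ≤ T → T ≤ Real.exp (X / u) →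
  1 / 20 ≤ T * ∑' n : ℕ, ArithmeticFunction.vonMangoldt n / (n : ℝ) *
    Real.exp (-(T ^ 2 * (X - Real.log n) ^ 2 / 4))

/-- T5. Primes in short intervals. -/
def S_HOH : Prop := ∃ θ : ℝ, 9 / 10 ≤ θ ∧ θ < 1 ∧ ∀ θ₂ : ℝ, θ ≤ θ₂ → θ₂ < 1 →
  ∀ᶠ y : ℝ in atTop, y ^ θ₂ / (Real.log y) ^ 3 ≤
    ((((Ioc ⌊y⌋₊ ⌊y + y ^ θ₂⌋₊).filter Nat.Prime).card : ℕ) : ℝ)

end

end Pool.Agent.H369Z.Hoh
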