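import Mathlib
import Pool.Agent.H369Z.Hoh.Defs

/-! Gaussian weight on vertical lines: transform of Dirichlet series, shifts, tails. -/

set_option autoImplicit false

open Finset Filter MeasureTheory Complex

namespace Pool.Agent.H369Z.Hoh

open Pool.Agent.H437R2

noncomputable section

/-- the weight `x^(s-1) exp((s-1)^2/T^2)` with `x = exp X` -/
def Wt (X T : ℝ) (s : ℂ) : ℂ := Complex.exp ((s - 1) * X + (s - 1) ^ 2 / (T : ℂ) ^ 2)

lemma Wt_diff (X T : ℝ) : Differentiable ℂ (Wt X T) := by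
  unfold Wt; fun_prop

lemma norm_Wt (X T σ t : ℝ) :
    ‖Wt X T (σ + t * I)‖ = Real.exp ((σ - 1) * X + ((σ - 1) ^ 2 - t ^ 2) / T ^ 2) := by
  unfold Wt
  rw [Complex.norm_exp]
  congr 1
  have h1 : ((σ : ℂ) + t * I - 1) ^ 2 / (T : ℂ) ^ 2 =
      ((((σ - 1) ^ 2 - t ^ 2) / T ^ 2 : ℝ) : ℂ) + ((2 * (σ - 1) * t / T ^ 2 : ℝ) : ℂ) * I := by
    push_cast
    have : I ^ 2 = -1 := I_sq
    by_cases hT : (T : ℂ) = 0
    · simp [hT]
    · field_simp
      linear_combination (t : ℂ) ^ 2 * this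
  rw [h1]
  simp only [Complex.add_re, Complex.mul_re, Complex.sub_re, Complex.ofReal_re, Complex.ofReal_im,
    Complex.I_re, Complex.I_im, Complex.one_re, Complex.sub_im, Complex.add_im, Complex.mul_im,
    Complex.one_im]
  ring

lemma norm_Wt_le {X T σ : ℝ} (t : ℝ) (hT : 1 ≤ T) (hσ : |σ - 1| ≤ 1) :
    ‖Wt X T (σ + t * I)‖ ≤ 3 * Real.exp ((σ - 1) * X) * Real.exp (-(t ^ 2 / T ^ 2)) := by
  rw [norm_Wt]
  have h1 : (σ - 1) ^ 2 / T ^ 2 ≤ 1 := by
    rw [div_le_one (by positivity)]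
    have : (σ - 1) ^ 2 ≤ 1 := by
      rw [← sq_abs]; nlinarith [abs_nonneg (σ - 1)]
    nlinarith
  have h2 : Real.exp 1 ≤ 3 := by have := Real.exp_one_lt_d9; linarith
  calc Real.exp ((σ - 1) * X + ((σ - 1) ^ 2 - t ^ 2) / T ^ 2)
      = Real.exp ((σ - 1) ^ 2 / T ^ 2) * Real.exp ((σ - 1) * X) * Real.exp (-(t ^ 2 / T ^ 2)) := by
        rw [← Real.exp_add, ← Real.exp_add]; congr 1; ring
    _ ≤ 3 * Real.exp ((σ - 1) * X) * Real.exp (-(t ^ 2 / T ^ 2)) := by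
        gcongr
        exact (Real.exp_le_exp.2 h1).trans h2

lemma gauss_form (T y : ℝ) (t : ℝ) (hT : 0 < T) :
    Complex.exp ((1 + t * I) * y + (1 + t * I) ^ 2 / (T : ℂ) ^ 2) =
      Complex.exp ((-(1 / (T : ℂ) ^ 2)) * (t : ℂ) ^ 2 + (I * y + 2 * I / (T : ℂ) ^ 2) * t +
        (y + 1 / (T : ℂ) ^ 2)) := by
  congr 1
  have : I ^ 2 = -1 := I_sq
  have hT' : (T : ℂ) ≠ 0 := by exact_mod_cast hT.ne'
  field_simp
  linear_combination (t : ℂ) ^ 2 * this

lemma neg_inv_re {T : ℝ} (hT : 0 < T) : (-(1 / (T : ℂ) ^ 2)).re < 0 := by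
  have : (-(1 / (T : ℂ) ^ 2)) = ((-(1 / T ^ 2) : ℝ) : ℂ) := by push_cast; ring
  rw [this, Complex.ofReal_re]
  have : 0 < 1 / T ^ 2 := by positivity
  linarith

lemma gauss_integrable (T y : ℝ) (hT : 0 < T) :
    Integrable (fun t : ℝ => Complex.exp ((1 + t * I) * y + (1 + t * I) ^ 2 / (T : ℂ) ^ 2)) := by
  simp_rw [gauss_form T y _ hT]
  exact integrable_cexp_quadratic' (neg_inv_re hT) _ _

lemma gauss_integral (T y : ℝ) (hT : 0 < T) :
    ∫ t : ℝ, Complex.exp ((1 + t * I) * y + (1 + t * I) ^ 2 / (T : ℂ) ^ 2) =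
      ((T * Real.sqrt Real.pi * Real.exp (-(T ^ 2 * y ^ 2 / 4)) : ℝ) : ℂ) := by
  simp_rw [gauss_form T y _ hT]
  rw [integral_cexp_quadratic (neg_inv_re hT)]
  have hT' : (T : ℂ) ≠ 0 := by exact_mod_cast hT.ne'
  have h1 : ((Real.pi : ℂ) / -(-(1 / (T : ℂ) ^ 2))) ^ (1 / 2 : ℂ) =
      ((T * Real.sqrt Real.pi : ℝ) : ℂ) := by
    have h2 : ((Real.pi : ℂ) / -(-(1 / (T : ℂ) ^ 2))) = (((T * Real.sqrt Real.pi) ^ 2 : ℝ) : ℂ) := by
      rw [mul_pow, Real.sq_sqrt Real.pi_pos.le]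
      push_cast
      field_simp
    rw [h2]
    have h3 : (1 / 2 : ℂ) = ((1 / 2 : ℝ) : ℂ) := by push_cast; ring
    have h4 : 0 ≤ T * Real.sqrt Real.pi := by positivity
    rw [h3, ← Complex.ofReal_cpow (by positivity), ← Real.sqrt_eq_rpow, Real.sqrt_sq h4]
  rw [h1]
  push_cast
  congr 2
  have : I ^ 2 = -1 := I_sq
  field_simp
  linear_combination ((T : ℂ) ^ 2 * y + 2) ^ 2 * this

lemma real_gauss_integrable {T : ℝ} (hT : 0 < T) (k : ℝ) (hk : 0 < k) :
    Integrable (fun t : ℝ => Real.exp (-(k * (t ^ 2 / T ^ 2)))) := by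
  have h := integrable_exp_neg_mul_sq (b := k / T ^ 2) (by positivity)
  refine h.congr (Eventually.of_forall fun t => ?_)
  simp only
  congr 1
  ring

lemma real_gauss_integral (T : ℝ) (k : ℝ) :
    ∫ t : ℝ, Real.exp (-(k * (t ^ 2 / T ^ 2))) = Real.sqrt (Real.pi / (k / T ^ 2)) := by
  rw [← integral_gaussian]
  congr 1
  ext t
  congr 1
  ring

lemma term_Wt (f : ℕ → ℂ) (X T : ℝ) (n : ℕ) (t : ℝ) :
    LSeries.term f (2 + t * I) n * Wt X T (2 + t * I) =
      f n / n * Complex.exp ((1 + t * I) * ((X - Real.log n : ℝ) : ℂ) +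
        (1 + t * I) ^ 2 / (T : ℂ) ^ 2) := by
  rcases Nat.eq_zero_or_pos n with rfl | hn
  · simp
  have hn0 : (n : ℂ) ≠ 0 := by exact_mod_cast hn.ne'
  rw [LSeries.term_of_ne_zero hn.ne']
  unfold Wt
  have h1 : (n : ℂ) ^ (2 + t * I) = n * Complex.exp ((1 + t * I) * (Real.log n : ℝ)) := by
    have : (2 + t * I : ℂ) = 1 + (1 + t * I) := by ring
    rw [this, Complex.cpow_add _ _ hn0, Complex.cpow_one, Complex.cpow_def_of_ne_zero hn0,
      Complex.natCast_log, mul_comm (Complex.log _)]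
  rw [h1]
  have h2 : (2 + t * I - 1 : ℂ) = 1 + t * I := by ring
  rw [h2]
  have h3 : Complex.exp ((1 + t * I) * ((X - Real.log n : ℝ) : ℂ) + (1 + t * I) ^ 2 / (T : ℂ) ^ 2) =
      Complex.exp ((1 + t * I) * X + (1 + t * I) ^ 2 / (T : ℂ) ^ 2) /
        Complex.exp ((1 + t * I) * (Real.log n : ℝ)) := by
    rw [← Complex.exp_sub]; congr 1; push_cast; ring
  rw [h3]
  have h4 := Complex.exp_ne_zero ((1 + t * I) * (Real.log n : ℝ))
  field_simp

lemma norm_term_line (f : ℕ → ℂ) (n : ℕ) (t : ℝ) :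
    ‖LSeries.term f (2 + t * I) n‖ = ‖LSeries.term f 2 n‖ := by
  rw [LSeries.norm_term_eq, LSeries.norm_term_eq]
  simp

/-- transform of a Dirichlet series against the Gaussian weight -/
theorem LSeries_Wt (f : ℕ → ℂ) (hf : LSeriesSummable f 2) (X T : ℝ) (hT : 0 < T) :
    HasSum (fun n : ℕ => f n / n *
      ((T * Real.sqrt Real.pi * Real.exp (-(T ^ 2 * (X - Real.log n) ^ 2 / 4)) : ℝ) : ℂ))
      (∫ t : ℝ, LSeries f (2 + t * I) * Wt X T (2 + t * I)) := by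
  have hint : ∀ n : ℕ, Integrable
      (fun t : ℝ => LSeries.term f (2 + t * I) n * Wt X T (2 + t * I)) := by
    intro n
    simp_rw [term_Wt]
    exact (gauss_integrable T _ hT).const_mul _
  have hs : Summable fun n : ℕ => ∫ t : ℝ, ‖LSeries.term f (2 + t * I) n * Wt X T (2 + t * I)‖ := by
    have h1 : ∀ n : ℕ, ∫ t : ℝ, ‖LSeries.term f (2 + t * I) n * Wt X T (2 + t * I)‖ =
        ‖LSeries.term f 2 n‖ * ∫ t : ℝ, ‖Wt X T (2 + t * I)‖ := by
      intro n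
      rw [← integral_const_mul]
      congr 1
      ext t
      rw [norm_mul, norm_term_line]
    simp_rw [h1]
    exact (summable_norm_iff.2 hf).mul_right _
  have h := hasSum_integral_of_summable_integral_norm hint hs
  have h2 : (fun t : ℝ => ∑' n : ℕ, LSeries.term f (2 + t * I) n * Wt X T (2 + t * I)) =
      fun t : ℝ => LSeries f (2 + t * I) * Wt X T (2 + t * I) := by
    ext t
    rw [tsum_mul_right]
    rfl
  rw [h2] at h
  have h3 : (fun n : ℕ => ∫ t : ℝ, LSeries.term f (2 + t * I) n * Wt X T (2 + t * I)) =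
      fun n : ℕ => f n / n *
      ((T * Real.sqrt Real.pi * Real.exp (-(T ^ 2 * (X - Real.log n) ^ 2 / 4)) : ℝ) : ℂ) := by
    ext n
    simp_rw [term_Wt]
    rw [integral_const_mul, gauss_integral T _ hT]
  rw [← h3]
  exact h

/-- truncated vertical integral -/
def VI (f : ℂ → ℂ) (X T H σ : ℝ) : ℂ := ∫ t in (-H)..H, f (σ + t * I) * Wt X T (σ + t * I)

/-- moving the line of integration -/
theorem VI_shift (f : ℂ → ℂ) {X T H σa σb B : ℝ} (hX : 0 ≤ X) (hT : 1 ≤ T) (hH : 0 ≤ H)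
    (h0 : 0 ≤ σa) (hab : σa ≤ σb) (h2 : σb ≤ 2)
    (hf : DifferentiableOn ℂ f (Set.Icc σa σb ×ℂ Set.Icc (-H) H))
    (hB : ∀ σ, σa ≤ σ → σ ≤ σb → ‖f (σ + H * I)‖ ≤ B ∧ ‖f (σ + (-H : ℝ) * I)‖ ≤ B) :
    ‖VI f X T H σb - VI f X T H σa‖ ≤ 12 * B * Real.exp X * Real.exp (-(H ^ 2 / T ^ 2)) := by
  have hB0 : 0 ≤ B := (norm_nonneg _).trans (hB σa le_rfl hab).1
  have key := Complex.integral_boundary_rect_eq_zero_of_differentiableOn
    (fun s => f s * Wt X T s) (σa + (-H : ℝ) * I) (σb + H * I) (by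
      have e1 : ((σa : ℂ) + (-H : ℝ) * I).re = σa := by simp
      have e2 : ((σb : ℂ) + H * I).re = σb := by simp
      have e3 : ((σa : ℂ) + (-H : ℝ) * I).im = -H := by simp
      have e4 : ((σb : ℂ) + H * I).im = H := by simp
      rw [e1, e2, e3, e4, Set.uIcc_of_le hab, Set.uIcc_of_le (by linarith)]
      exact hf.mul (Wt_diff X T).differentiableOn)
  have e1 : ((σa : ℂ) + (-H : ℝ) * I).re = σa := by simp
  have e2 : ((σb : ℂ) + H * I).re = σb := by simp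
  have e3 : ((σa : ℂ) + (-H : ℝ) * I).im = -H := by simp
  have e4 : ((σb : ℂ) + H * I).im = H := by simp
  rw [e1, e2, e3, e4] at key
  have hb : ∀ y : ℝ, y ^ 2 = H ^ 2 → (∀ σ, σa ≤ σ → σ ≤ σb → ‖f (σ + y * I)‖ ≤ B) →
      ‖∫ x : ℝ in σa..σb, f (x + y * I) * Wt X T (x + y * I)‖ ≤
        6 * B * Real.exp X * Real.exp (-(H ^ 2 / T ^ 2)) := by
    intro y hy hfy
    have h3 : ‖∫ x : ℝ in σa..σb, f (x + y * I) * Wt X T (x + y * I)‖ ≤
        (3 * B * Real.exp X * Real.exp (-(H ^ 2 / T ^ 2))) * |σb - σa| := by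
      apply intervalIntegral.norm_integral_le_of_norm_le_const
      intro x hx
      rw [Set.uIoc_of_le hab] at hx
      have hx1 : |x - 1| ≤ 1 := by
        rw [abs_le]; constructor <;> linarith [hx.1, hx.2]
      rw [norm_mul]
      have h4 := norm_Wt_le (X := X) y hT hx1
      have h5 : Real.exp ((x - 1) * X) ≤ Real.exp X := by
        apply Real.exp_le_exp.2
        nlinarith [hx.2]
      rw [hy] at h4
      calc ‖f (x + y * I)‖ * ‖Wt X T (x + y * I)‖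
          ≤ B * (3 * Real.exp ((x - 1) * X) * Real.exp (-(H ^ 2 / T ^ 2))) :=
            mul_le_mul (hfy x hx.1.le hx.2) h4 (norm_nonneg _) hB0
        _ ≤ B * (3 * Real.exp X * Real.exp (-(H ^ 2 / T ^ 2))) := by gcongr
        _ = _ := by ring
    have h6 : |σb - σa| ≤ 2 := by rw [abs_le]; constructor <;> linarith
    calc _ ≤ (3 * B * Real.exp X * Real.exp (-(H ^ 2 / T ^ 2))) * |σb - σa| := h3
      _ ≤ (3 * B * Real.exp X * Real.exp (-(H ^ 2 / T ^ 2))) * 2 := by gcongr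
      _ = _ := by ring
  have k1 := hb (-H) (by ring) (fun σ h1 h2 => (hB σ h1 h2).2)
  have k2 := hb H rfl (fun σ h1 h2 => (hB σ h1 h2).1)
  have k3 : I * (VI f X T H σb - VI f X T H σa) =
      (∫ x : ℝ in σa..σb, f (x + H * I) * Wt X T (x + H * I)) -
        ∫ x : ℝ in σa..σb, f (x + (-H : ℝ) * I) * Wt X T (x + (-H : ℝ) * I) := by
    unfold VI
    simp only [smul_eq_mul] at key
    linear_combination key
  have k4 : ‖VI f X T H σb - VI f X T H σa‖ = ‖I * (VI f X T H σb - VI f X T H σa)‖ := by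
    rw [norm_mul, Complex.norm_I, one_mul]
  rw [k4, k3]
  refine (norm_sub_le _ _).trans ?_
  linarith

/-- the tails of the integral on the line `Re s = 2` -/
theorem VI_tail (f : ℂ → ℂ) {X T H B : ℝ} (hT : 1 ≤ T) (hH : 0 ≤ H)
    (hc : Continuous fun t : ℝ => f (((2 : ℝ) : ℂ) + t * I))
    (hB : ∀ t : ℝ, ‖f (((2 : ℝ) : ℂ) + t * I)‖ ≤ B) :
    ‖(∫ t : ℝ, f (((2 : ℝ) : ℂ) + t * I) * Wt X T (((2 : ℝ) : ℂ) + t * I)) - VI f X T H 2‖ ≤
      9 * B * T * Real.exp X * Real.exp (-(H ^ 2 / T ^ 2 / 2)) := by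
  have hT0 : 0 < T := by linarith
  have hB0 : 0 ≤ B := (norm_nonneg _).trans (hB 0)
  set g : ℝ → ℂ := fun t => f (((2 : ℝ) : ℂ) + t * I) * Wt X T (((2 : ℝ) : ℂ) + t * I) with hg
  have hgc : Continuous g := by
    apply hc.mul
    exact (Wt_diff X T).continuous.comp (by fun_prop)
  have hgb : ∀ t, ‖g t‖ ≤ 3 * B * Real.exp X * Real.exp (-(1 * (t ^ 2 / T ^ 2))) := by
    intro t
    have h4 := norm_Wt_le (X := X) (σ := 2) t hT (by norm_num)
    simp only [hg]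
    rw [norm_mul, one_mul]
    calc _ ≤ B * (3 * Real.exp ((2 - 1) * X) * Real.exp (-(t ^ 2 / T ^ 2))) :=
          mul_le_mul (hB t) h4 (norm_nonneg _) hB0
      _ = _ := by norm_num; ring
  have hgi : Integrable g :=
    Integrable.mono' ((real_gauss_integrable hT0 1 one_pos).const_mul (3 * B * Real.exp X))
      hgc.aestronglyMeasurable (Eventually.of_forall hgb)
  have h1 : VI f X T H 2 = ∫ t in Set.Ioc (-H) H, g t := by
    unfold VI
    rw [intervalIntegral.integral_of_le (by linarith)]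
  have h2 := integral_add_compl (measurableSet_Ioc (a := -H) (b := H)) hgi
  have h3 : (∫ t, g t) - VI f X T H 2 = ∫ t in (Set.Ioc (-H) H)ᶜ, g t := by
    rw [h1, ← h2]; ring
  show ‖(∫ t, g t) - VI f X T H 2‖ ≤ _
  rw [h3]
  set K : ℝ := 3 * B * Real.exp X * Real.exp (-(H ^ 2 / T ^ 2 / 2)) with hK
  have hK0 : 0 ≤ K := by positivity
  have hi2 := (real_gauss_integrable hT0 (1 / 2) (by norm_num)).const_mul K
  have h4 : ‖∫ t in (Set.Ioc (-H) H)ᶜ, g t‖ ≤
      ∫ t in (Set.Ioc (-H) H)ᶜ, K * Real.exp (-(1 / 2 * (t ^ 2 / T ^ 2))) := by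
    apply norm_integral_le_of_norm_le hi2.integrableOn
    refine (ae_restrict_mem measurableSet_Ioc.compl).mono fun t ht => ?_
    refine (hgb t).trans ?_
    have h5 : H ^ 2 ≤ t ^ 2 := by
      simp only [Set.mem_compl_iff, Set.mem_Ioc, not_and_or, not_lt, not_le] at ht
      rcases ht with ht | ht <;> nlinarith
    have h6 : H ^ 2 / T ^ 2 ≤ t ^ 2 / T ^ 2 := by gcongr
    rw [hK, mul_assoc (3 * B * Real.exp X), ← Real.exp_add]
    gcongr
    linarith
  have h7 : ∫ t in (Set.Ioc (-H) H)ᶜ, K * Real.exp (-(1 / 2 * (t ^ 2 / T ^ 2))) ≤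
      ∫ t, K * Real.exp (-(1 / 2 * (t ^ 2 / T ^ 2))) :=
    setIntegral_le_integral hi2 (Eventually.of_forall fun t => by positivity)
  have h8 : ∫ t, K * Real.exp (-(1 / 2 * (t ^ 2 / T ^ 2))) ≤ K * (3 * T) := by
    rw [integral_const_mul, real_gauss_integral]
    gcongr
    rw [Real.sqrt_le_iff]
    refine ⟨by positivity, ?_⟩
    rw [div_le_iff₀ (by positivity)]
    have : (3 * T) ^ 2 * (1 / 2 / T ^ 2) = 9 / 2 := by field_simp; norm_num
    rw [this]
    linarith [Real.pi_lt_four]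
  calc _ ≤ K * (3 * T) := h4.trans (h7.trans h8)
    _ = _ := by rw [hK]; ring

end

end Pool.Agent.H369Z.Hoh
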