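import Mathlib
import Pool.Agent.H369Z.Hoh.T4a

/-! Bounds for `ζ`, `ζ'` and the pieces of the Vaughan-type identity. -/

set_option autoImplicit false

open Finset Filter MeasureTheory Complex

namespace Pool.Agent.H369Z.Hoh

open Pool.Agent.H437R2

noncomputable section

lemma z1_deriv_le {s : ℂ} (hs : 3 / 4 ≤ s.re) : ‖deriv riemannZeta₁ s‖ ≤ 12 * (‖s‖ + 2) ^ 2 := by
  have h := Complex.norm_deriv_le_of_forall_mem_sphere_norm_le (c := s) (R := 1 / 4)
    (C := 3 * (‖s‖ + 2) ^ 2) (f := riemannZeta₁) (by norm_num)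
    differentiable_riemannZeta₁.diffContOnCl (by
      intro z hz
      rw [mem_sphere_iff_norm] at hz
      have h1 : |(z - s).re| ≤ 1 / 4 := (Complex.abs_re_le_norm _).trans hz.le
      rw [Complex.sub_re, abs_le] at h1
      have h2 : ‖z‖ ≤ ‖s‖ + 1 / 4 := by
        have : z = s + (z - s) := by ring
        calc ‖z‖ = ‖s + (z - s)‖ := by rw [← this]
          _ ≤ ‖s‖ + ‖z - s‖ := norm_add_le _ _
          _ = _ := by rw [hz]
      refine (z1_norm_le (by linarith [h1.1])).trans ?_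
      have := norm_nonneg z
      have h3 : (‖z‖ + 1) ^ 2 ≤ (‖s‖ + 2) ^ 2 := pow_le_pow_left₀ (by linarith) (by linarith) 2
      linarith)
  linarith

lemma zeta_bd {s : ℂ} (hs : 3 / 4 ≤ s.re) (h1 : 1 / 4 ≤ ‖s - 1‖) :
    ‖riemannZeta s‖ ≤ 12 * (‖s‖ + 2) ^ 2 ∧ ‖deriv riemannZeta s‖ ≤ 96 * (‖s‖ + 2) ^ 2 := by
  have hs1 : s ≠ 1 := by
    rintro rfl
    norm_num at h1
  have hi : ‖(s - 1)⁻¹‖ ≤ 4 := by
    rw [norm_inv]
    calc ‖s - 1‖⁻¹ ≤ (1 / 4)⁻¹ := inv_anti₀ (by norm_num) h1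
      _ = 4 := by norm_num
  have hz : ‖riemannZeta₁ s‖ ≤ 3 * (‖s‖ + 2) ^ 2 := by
    refine (z1_norm_le (by linarith)).trans ?_
    have := norm_nonneg s
    gcongr
    norm_num
  have hd := z1_deriv_le hs
  constructor
  · rw [riemannZeta_eq_inv_sub_mul hs1, norm_mul]
    calc ‖(s - 1)⁻¹‖ * ‖riemannZeta₁ s‖ ≤ 4 * (3 * (‖s‖ + 2) ^ 2) := by gcongr
      _ = _ := by ring
  · rw [deriv_riemannZeta_eq_neg_inv_sub_sq_mul_add hs1]
    refine (norm_add_le _ _).trans ?_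
    rw [norm_mul, norm_mul, norm_neg, norm_pow]
    calc ‖(s - 1)⁻¹‖ ^ 2 * ‖riemannZeta₁ s‖ + ‖(s - 1)⁻¹‖ * ‖deriv riemannZeta₁ s‖
        ≤ 4 ^ 2 * (3 * (‖s‖ + 2) ^ 2) + 4 * (12 * (‖s‖ + 2) ^ 2) := by gcongr
      _ = _ := by ring

/-- `-ζ'/ζ - ζ`, without the pole -/
def AA (s : ℂ) : ℂ := -(deriv riemannZeta₁ s / riemannZeta₁ s) - riemannZeta₀ s

/-- the terms of type I -/
def BB (M : ℂ → ℂ) (s : ℂ) : ℂ :=
  riemannZeta s * deriv riemannZeta s * M s ^ 2 - 2 * deriv riemannZeta s * M s - riemannZeta s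

lemma logder_eq {s : ℂ} (hs : s ≠ 1) (hz : riemannZeta₁ s ≠ 0) :
    deriv riemannZeta s / riemannZeta s = deriv riemannZeta₁ s / riemannZeta₁ s - (s - 1)⁻¹ := by
  have h1 : s - 1 ≠ 0 := sub_ne_zero.2 hs
  rw [deriv_riemannZeta_eq_neg_inv_sub_sq_mul_add hs, riemannZeta_eq_inv_sub_mul hs]
  field_simp
  ring

lemma AA_eq {s : ℂ} (hs : s ≠ 1) (hz : riemannZeta₁ s ≠ 0) :
    AA s = -(deriv riemannZeta s / riemannZeta s) - riemannZeta s := by
  rw [logder_eq hs hz, riemannZeta_eq_inv_sub_add hs]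
  unfold AA
  ring

lemma AA_sub_BB (M : ℂ → ℂ) {s : ℂ} (hs : s ≠ 1) (hz : riemannZeta₁ s ≠ 0) :
    AA s - BB M s =
      -(deriv riemannZeta₁ s / riemannZeta₁ s - (s - 1)⁻¹) * (riemannZeta s * M s - 1) ^ 2 := by
  rw [AA_eq hs hz, ← logder_eq hs hz]
  have h0 : riemannZeta s ≠ 0 := by
    rw [riemannZeta_eq_inv_sub_mul hs]
    exact mul_ne_zero (inv_ne_zero (sub_ne_zero.2 hs)) hz
  unfold BB
  field_simp
  ring

lemma AA_diffAt {s : ℂ} (hz : riemannZeta₁ s ≠ 0) : DifferentiableAt ℂ AA s := by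
  unfold AA
  have h1 : DifferentiableAt ℂ (deriv riemannZeta₁) s := differentiable_riemannZeta₁.deriv s
  exact ((h1.div (differentiable_riemannZeta₁ s) hz).neg).sub (differentiable_riemannZeta₀ s)

lemma dzeta_diffAt {s : ℂ} (hs : s ≠ 1) : DifferentiableAt ℂ (deriv riemannZeta) s := by
  have h : DifferentiableOn ℂ riemannZeta {1}ᶜ := fun z hz =>
    (differentiableAt_riemannZeta hz).differentiableWithinAt
  exact (h.deriv isOpen_compl_singleton).differentiableAt (isOpen_compl_singleton.mem_nhds hs)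

lemma BB_diffAt {M : ℂ → ℂ} (hM : Differentiable ℂ M) {s : ℂ} (hs : s ≠ 1) :
    DifferentiableAt ℂ (BB M) s := by
  unfold BB
  have h1 := differentiableAt_riemannZeta hs
  have h2 := dzeta_diffAt hs
  have h3 := hM s
  exact (((h1.mul h2).mul (h3.pow 2)).sub ((h2.const_mul 2).mul h3)).sub h1

lemma norm_line_le {σ t H : ℝ} (h0 : 0 ≤ σ) (h2 : σ ≤ 2) (ht : |t| ≤ H) :
    ‖(σ : ℂ) + t * I‖ ≤ H + 2 := by
  refine (norm_add_le _ _).trans ?_
  rw [norm_mul, Complex.norm_I, mul_one, Complex.norm_real, Complex.norm_real, Real.norm_eq_abs,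
    Real.norm_eq_abs, abs_of_nonneg h0]
  linarith

lemma BB_bd {M : ℂ → ℂ} {m σ t H : ℝ} (hm : ∀ s : ℂ, 0 ≤ s.re → ‖M s‖ ≤ m) (h0 : 3 / 4 ≤ σ)
    (h2 : σ ≤ 2) (ht : |t| ≤ H) (h1 : 1 / 4 ≤ ‖(σ : ℂ) + t * I - 1‖) :
    ‖BB M (σ + t * I)‖ ≤ 1400 * (m + 1) ^ 2 * (H + 4) ^ 4 := by
  set s : ℂ := σ + t * I with hs
  have hre : s.re = σ := by simp [hs]
  obtain ⟨hz, hd⟩ := zeta_bd (s := s) (by rw [hre]; exact h0) h1
  have hn : ‖s‖ ≤ H + 2 := norm_line_le (by linarith) h2 ht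
  have hM := hm s (by rw [hre]; linarith)
  have hm0 : 0 ≤ m := (norm_nonneg _).trans hM
  have hH : 0 ≤ H := (abs_nonneg t).trans ht
  set Y : ℝ := (H + 4) ^ 2 with hY
  have hY1 : 1 ≤ Y := by rw [hY]; nlinarith
  have hsY : (‖s‖ + 2) ^ 2 ≤ Y := by
    rw [hY]
    have := norm_nonneg s
    exact pow_le_pow_left₀ (by linarith) (by linarith) 2
  have hz' : ‖riemannZeta s‖ ≤ 12 * Y := hz.trans (by linarith)
  have hd' : ‖deriv riemannZeta s‖ ≤ 96 * Y := hd.trans (by linarith)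
  have e4 : (H + 4) ^ 4 = Y ^ 2 := by rw [hY]; ring
  rw [e4]
  unfold BB
  calc ‖riemannZeta s * deriv riemannZeta s * M s ^ 2 - 2 * deriv riemannZeta s * M s -
        riemannZeta s‖ ≤ ‖riemannZeta s * deriv riemannZeta s * M s ^ 2‖ +
        ‖2 * deriv riemannZeta s * M s‖ + ‖riemannZeta s‖ :=
        (norm_sub_le _ _).trans (by gcongr; exact norm_sub_le _ _)
    _ = ‖riemannZeta s‖ * ‖deriv riemannZeta s‖ * ‖M s‖ ^ 2 +
        2 * ‖deriv riemannZeta s‖ * ‖M s‖ + ‖riemannZeta s‖ := by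
        simp only [norm_mul, norm_pow, Complex.norm_ofNat]
    _ ≤ (12 * Y) * (96 * Y) * m ^ 2 + 2 * (96 * Y) * m + 12 * Y := by gcongr
    _ ≤ 1400 * (m + 1) ^ 2 * Y ^ 2 := by
        have h3 : Y ≤ Y ^ 2 := by nlinarith
        have h4 : Y * m ≤ Y ^ 2 * m := by gcongr
        have h5 : 0 ≤ Y ^ 2 * m := by positivity
        have h6 : 0 ≤ Y ^ 2 * m ^ 2 := by positivity
        nlinarith

lemma one_le_norm_hor {σ y : ℝ} (hy : 1 ≤ |y|) : 1 ≤ ‖(σ : ℂ) + y * I - 1‖ := by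
  have h := Complex.abs_im_le_norm ((σ : ℂ) + y * I - 1)
  simp only [Complex.sub_im, Complex.add_im, Complex.ofReal_im, Complex.mul_im, Complex.ofReal_re,
    Complex.I_im, Complex.I_re, Complex.one_im] at h
  have : (0 + (y * 1 + 0 * 0) - 0 : ℝ) = y := by ring
  rw [this] at h
  linarith

lemma abs_re_le_norm_line (σ y : ℝ) : |σ - 1| ≤ ‖(σ : ℂ) + y * I - 1‖ := by
  have h := Complex.abs_re_le_norm ((σ : ℂ) + y * I - 1)
  simpa using h

lemma z0_bd {σ y H : ℝ} (h0 : 3 / 4 ≤ σ) (h2 : σ ≤ 2) (hy : 1 ≤ |y|) (hH : |y| ≤ H) :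
    ‖riemannZeta₀ (σ + y * I)‖ ≤ 13 * (H + 4) ^ 2 := by
  set s : ℂ := σ + y * I with hs
  have hre : s.re = σ := by simp [hs]
  have h1 : 1 ≤ ‖s - 1‖ := one_le_norm_hor hy
  have hs1 : s ≠ 1 := by
    intro h
    rw [h] at h1
    norm_num at h1
  obtain ⟨hz, -⟩ := zeta_bd (s := s) (by rw [hre]; exact h0) (by linarith)
  have hn : ‖s‖ ≤ H + 2 := norm_line_le (by linarith) h2 hH
  have e : riemannZeta₀ s = riemannZeta s - (s - 1)⁻¹ := by
    rw [riemannZeta_eq_inv_sub_add hs1]; ring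
  have hi : ‖(s - 1)⁻¹‖ ≤ 1 := by
    rw [norm_inv]; exact inv_le_one_of_one_le₀ h1
  have hsY : (‖s‖ + 2) ^ 2 ≤ (H + 4) ^ 2 := by
    have := norm_nonneg s
    exact pow_le_pow_left₀ (by linarith) (by linarith) 2
  have hY1 : 1 ≤ (H + 4) ^ 2 := by nlinarith
  rw [e]
  refine (norm_sub_le _ _).trans ?_
  linarith

/-- the function `Λ - 1` -/
def fL (n : ℕ) : ℂ := ((ArithmeticFunction.vonMangoldt n : ℝ) : ℂ)

lemma fL_summable {s : ℂ} (hs : 1 < s.re) : LSeriesSummable fL s :=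
  ArithmeticFunction.LSeriesSummable_vonMangoldt hs

lemma z1_ne_of_one_lt {s : ℂ} (hs : 1 < s.re) : riemannZeta₁ s ≠ 0 := fun h => by
  have := z1_zero_re h
  linarith

lemma AA_line (t : ℝ) : AA (2 + t * I) = LSeries (fL - 1) (2 + t * I) := by
  have hs : 1 < (2 + t * I : ℂ).re := by simp
  have hs1 : (2 + t * I : ℂ) ≠ 1 := by
    intro h
    rw [h] at hs
    simp at hs
  rw [AA_eq hs1 (z1_ne_of_one_lt hs),
    LSeries_sub (fL_summable hs) (LSeriesSummable_one_iff.2 hs), LSeries_one_eq_riemannZeta hs]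
  have := ArithmeticFunction.LSeries_vonMangoldt_eq_deriv_riemannZeta_div hs
  have e : LSeries fL (2 + t * I) = -deriv riemannZeta (2 + t * I) / riemannZeta (2 + t * I) := this
  rw [e]
  ring

lemma fL1_summable : LSeriesSummable (fL - 1) 2 :=
  (fL_summable (by simp)).sub (LSeriesSummable_one_iff.2 (by simp))

/-- bound on the line `Re s = 2` -/
def C2 : ℝ := ∑' n : ℕ, ‖LSeries.term (fL - 1) 2 n‖

lemma AA_line_le (t : ℝ) : ‖AA (2 + t * I)‖ ≤ C2 := by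
  rw [AA_line]
  have h := summable_norm_iff.2 fL1_summable
  have h2 : Summable fun n : ℕ => ‖LSeries.term (fL - 1) (2 + t * I) n‖ := by
    simp_rw [norm_term_line]; exact h
  refine (norm_tsum_le_tsum_norm h2).trans ?_
  simp_rw [norm_term_line]
  exact le_rfl

/-- the Gaussian factor -/
def EE (X T : ℝ) (n : ℕ) : ℝ := Real.exp (-(T ^ 2 * (X - Real.log n) ^ 2 / 4))

lemma sums_eq (X T : ℝ) (hT : 0 < T) :
    Summable (fun n : ℕ => 1 / (n : ℝ) * EE X T n) ∧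
    T * Real.sqrt Real.pi * (∑' n : ℕ, ArithmeticFunction.vonMangoldt n / (n : ℝ) * EE X T n) -
      T * Real.sqrt Real.pi * (∑' n : ℕ, 1 / (n : ℝ) * EE X T n) =
      (∫ t : ℝ, AA (2 + t * I) * Wt X T (2 + t * I)).re := by
  have h1 := LSeries_Wt fL (fL_summable (by simp)) X T hT
  have h2 := LSeries_Wt 1 (LSeriesSummable_one_iff.2 (by simp)) X T hT
  have h3 := LSeries_Wt (fL - 1) fL1_summable X T hT
  simp_rw [← AA_line] at h3
  have h4 := (h1.sub h2)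
  have h5 : (fun n : ℕ => fL n / n *
      ((T * Real.sqrt Real.pi * Real.exp (-(T ^ 2 * (X - Real.log n) ^ 2 / 4)) : ℝ) : ℂ) -
      (1 : ℕ → ℂ) n / n *
      ((T * Real.sqrt Real.pi * Real.exp (-(T ^ 2 * (X - Real.log n) ^ 2 / 4)) : ℝ) : ℂ)) =
      fun n : ℕ => (fL - 1) n / n *
      ((T * Real.sqrt Real.pi * Real.exp (-(T ^ 2 * (X - Real.log n) ^ 2 / 4)) : ℝ) : ℂ) := by
    ext n
    simp only [Pi.sub_apply]
    ring
  rw [h5] at h4
  have h6 := h3.unique h4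
  have h7 := Complex.hasSum_re h1
  have h8 := Complex.hasSum_re h2
  have e1 : (fun n : ℕ => (fL n / n *
      ((T * Real.sqrt Real.pi * Real.exp (-(T ^ 2 * (X - Real.log n) ^ 2 / 4)) : ℝ) : ℂ)).re) =
      fun n : ℕ => T * Real.sqrt Real.pi *
        (ArithmeticFunction.vonMangoldt n / (n : ℝ) * EE X T n) := by
    ext n
    have : fL n / n *
      ((T * Real.sqrt Real.pi * Real.exp (-(T ^ 2 * (X - Real.log n) ^ 2 / 4)) : ℝ) : ℂ) =
      ((T * Real.sqrt Real.pi *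
        (ArithmeticFunction.vonMangoldt n / (n : ℝ) * EE X T n) : ℝ) : ℂ) := by
      unfold fL EE
      push_cast
      ring
    rw [this, Complex.ofReal_re]
  have e2 : (fun n : ℕ => ((1 : ℕ → ℂ) n / n *
      ((T * Real.sqrt Real.pi * Real.exp (-(T ^ 2 * (X - Real.log n) ^ 2 / 4)) : ℝ) : ℂ)).re) =
      fun n : ℕ => T * Real.sqrt Real.pi * (1 / (n : ℝ) * EE X T n) := by
    ext n
    have : (1 : ℕ → ℂ) n / n *
      ((T * Real.sqrt Real.pi * Real.exp (-(T ^ 2 * (X - Real.log n) ^ 2 / 4)) : ℝ) : ℂ) =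
      ((T * Real.sqrt Real.pi * (1 / (n : ℝ) * EE X T n) : ℝ) : ℂ) := by
      unfold EE
      simp only [Pi.one_apply]
      push_cast
      ring
    rw [this, Complex.ofReal_re]
  rw [e1] at h7
  rw [e2] at h8
  have hc : T * Real.sqrt Real.pi ≠ 0 := by
    have := Real.sqrt_pos.2 Real.pi_pos
    positivity
  refine ⟨(summable_mul_left_iff hc).1 h8.summable, ?_⟩
  rw [h6, Complex.sub_re, ← h7.tsum_eq, ← h8.tsum_eq, tsum_mul_left, tsum_mul_left]

lemma sum_one_lower {X T : ℝ} (hT : 1 ≤ T) (hx : 2 * T ≤ Real.exp X) :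
    3 / 10 ≤ T * Real.sqrt Real.pi * (∑' n : ℕ, 1 / (n : ℝ) * EE X T n) := by
  have hT0 : 0 < T := by linarith
  obtain ⟨hs, -⟩ := sums_eq X T hT0
  set x := Real.exp X with hxdef
  have hx0 : 0 < x := Real.exp_pos X
  set S := Ioc ⌊x⌋₊ ⌊x * (1 + 1 / T)⌋₊ with hS
  have h1 : ∑ n ∈ S, 1 / (n : ℝ) * EE X T n ≤ ∑' n : ℕ, 1 / (n : ℝ) * EE X T n :=
    hs.sum_le_tsum S (fun n _ => by unfold EE; positivity)
  have hTi : 1 / T ≤ 1 := by rw [div_le_one hT0]; exact hT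
  have hTp : 0 < 1 / T := by positivity
  have h2 : ∀ n ∈ S, 1 / (2 * x) * (3 / 4) ≤ 1 / (n : ℝ) * EE X T n := by
    intro n hn
    rw [hS, mem_Ioc] at hn
    have h3 : x < n := (Nat.floor_lt hx0.le).1 hn.1
    have h4 : (n : ℝ) ≤ x * (1 + 1 / T) := (Nat.le_floor_iff (by positivity)).1 hn.2
    have hn0 : (0 : ℝ) < n := by linarith
    have h5 : X ≤ Real.log n := by
      rw [Real.le_log_iff_exp_le hn0]; exact h3.le
    have h6 : Real.log n ≤ X + 1 / T := by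
      rw [Real.log_le_iff_le_exp hn0, Real.exp_add]
      refine h4.trans ?_
      gcongr
      have := Real.add_one_le_exp (1 / T)
      linarith
    have h7 : T ^ 2 * (X - Real.log n) ^ 2 ≤ 1 := by
      have h8 : T * (Real.log n - X) ≤ 1 := by
        calc T * (Real.log n - X) ≤ T * (1 / T) := by gcongr; linarith
          _ = 1 := by field_simp
      have h9 : 0 ≤ T * (Real.log n - X) := by
        apply mul_nonneg hT0.le; linarith
      nlinarith
    have h10 : 3 / 4 ≤ EE X T n := by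
      unfold EE
      have := Real.add_one_le_exp (-(T ^ 2 * (X - Real.log n) ^ 2 / 4))
      linarith
    have h11 : 1 / (2 * x) ≤ 1 / (n : ℝ) := by
      apply one_div_le_one_div_of_le hn0
      nlinarith
    exact mul_le_mul h11 h10 (by norm_num) (by positivity)
  have h12 : x / (2 * T) ≤ (S.card : ℝ) := by
    rw [hS, Nat.card_Ioc]
    have h13 : ⌊x⌋₊ ≤ ⌊x * (1 + 1 / T)⌋₊ := Nat.floor_le_floor (by nlinarith)
    rw [Nat.cast_sub h13]
    have h14 : (⌊x⌋₊ : ℝ) ≤ x := Nat.floor_le hx0.le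
    have h15 : x * (1 + 1 / T) < ⌊x * (1 + 1 / T)⌋₊ + 1 := Nat.lt_floor_add_one _
    have h16 : 1 ≤ x / (2 * T) := by rw [le_div_iff₀ (by positivity)]; linarith
    have h17 : x * (1 + 1 / T) = x + 2 * (x / (2 * T)) := by field_simp
    linarith
  have h18 : x / (2 * T) * (1 / (2 * x) * (3 / 4)) ≤ ∑ n ∈ S, 1 / (n : ℝ) * EE X T n := by
    have := card_nsmul_le_sum S _ _ h2
    rw [nsmul_eq_mul] at this
    refine le_trans ?_ this
    gcongr
  have h19 : (17 / 10 : ℝ) ≤ Real.sqrt Real.pi := by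
    apply Real.le_sqrt_of_sq_le
    linarith [Real.pi_gt_three]
  have h20 : x / (2 * T) * (1 / (2 * x) * (3 / 4)) = 3 / (16 * T) := by field_simp; ring
  rw [h20] at h18
  calc (3 / 10 : ℝ) ≤ T * (17 / 10) * (3 / (16 * T)) := by
        have : T * (17 / 10) * (3 / (16 * T)) = 51 / 160 := by field_simp; ring
        rw [this]; norm_num
    _ ≤ T * Real.sqrt Real.pi * (∑' n : ℕ, 1 / (n : ℝ) * EE X T n) := by
        gcongr
        exact h18.trans h1

end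

end Pool.Agent.H369Z.Hoh
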