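import Mathlib
import Pool.Agent.H369Z.Hoh.T4b

/-! The contour argument: `S_ZFR` and `S_MOL` give `S_MAIN`. -/

set_option autoImplicit false

open Finset Filter MeasureTheory Complex

namespace Pool.Agent.H369Z.Hoh

open Pool.Agent.H437R2

noncomputable section

lemma ell_le_three {L t : ℝ} (hL : 4 ≤ L) (ht : |t| ≤ Real.exp (2 * L)) : ell t ≤ 3 * L := by
  unfold ell
  rw [Real.log_le_iff_le_exp (by positivity)]
  have h1 : Real.exp (3 * L) = Real.exp (2 * L) * Real.exp L := by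
    rw [← Real.exp_add]; congr 1; ring
  have h2 := Real.add_one_le_exp L
  have h3 := Real.add_one_le_exp (2 * L)
  rw [h1]
  nlinarith

lemma line_ne_one {σ : ℝ} (h : σ < 1) (t : ℝ) : (σ : ℂ) + t * I ≠ 1 := by
  intro e
  have := congrArg Complex.re e
  simp at this
  linarith

lemma cont_line {f : ℂ → ℂ} {σ H : ℝ} (hH : 0 ≤ H)
    (hf : ∀ t : ℝ, |t| ≤ H → DifferentiableAt ℂ f (σ + t * I)) :
    ContinuousOn (fun t : ℝ => f (σ + t * I)) (Set.uIcc (-H) H) := by
  intro t ht
  rw [Set.uIcc_of_le (by linarith)] at ht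
  have h1 : ContinuousAt (fun t : ℝ => (σ : ℂ) + t * I) t := by fun_prop
  exact (ContinuousAt.comp (f := fun t : ℝ => (σ : ℂ) + t * I)
    (hf t (abs_le.2 ht)).continuousAt h1).continuousWithinAt

lemma core {c C CM u X T : ℝ} {M : ℂ → ℂ} (hc0 : 0 < c) (hc4 : c ≤ 1 / 4) (hC : 0 < C)
    (hCM : 0 < CM)
    (hZ : ∀ s : ℂ, 1 - c / ell s.im ≤ s.re → s.re ≤ 2 →
      riemannZeta₁ s ≠ 0 ∧ ‖deriv riemannZeta₁ s / riemannZeta₁ s‖ ≤ C * ell s.im)
    (hu : 200 ≤ u) (hL : 4 ≤ X / u) (hXL : X ≤ Real.exp (X / u)) (hT : 1 ≤ T)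
    (hTL : T ≤ Real.exp (X / u)) (hMd : Differentiable ℂ M)
    (hMb : ∀ s : ℂ, 0 ≤ s.re → ‖M s‖ ≤ CM * Real.exp (6 * (X / u)))
    (hM2 : ∀ a T H : ℝ, 0 < a → a ≤ 1 / (X / u) → 1 ≤ T → T ≤ Real.exp (X / u) → 0 ≤ H →
      H ≤ Real.exp (2 * (X / u)) →
      ∫ t in (-H)..H, ‖riemannZeta (((1 - a : ℝ) : ℂ) + t * Complex.I) *
        M (((1 - a : ℝ) : ℂ) + t * Complex.I) - 1‖ ^ 2 * Real.exp (-(t ^ 2 / T ^ 2)) ≤
        CM / ((X / u) ^ 2 * a)) :
    ‖∫ t : ℝ, AA (2 + t * I) * Wt X T (2 + t * I)‖ ≤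
      3 * (3 * C + 3 / c) * (3 * CM / c) * Real.exp (-(c * u / 3)) +
      (9 * C2 + 12 * (3 * C + 52) + 18 * (22400 * (CM + 1) ^ 2)) * Real.exp (-(X / 8)) := by
  set L := X / u with hLdef
  have hu0 : 0 < u := by linarith
  have hL0 : 0 < L := by linarith
  have hXe : X = u * L := by rw [hLdef]; field_simp
  have hX200 : 200 * L ≤ X := by rw [hXe]; nlinarith
  have hX0 : 800 ≤ X := by linarith
  have hT0 : 0 < T := by linarith
  set H := T * X with hHdef
  have hH1 : 1 ≤ H := by rw [hHdef]; nlinarith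
  have hH0 : 0 ≤ H := by linarith
  have hHL : H ≤ Real.exp (2 * L) := by
    rw [hHdef, two_mul, Real.exp_add]
    exact mul_le_mul hTL hXL (by linarith) (Real.exp_pos _).le
  have hHT : H ^ 2 / T ^ 2 = X ^ 2 := by rw [hHdef]; field_simp
  set a := c / (3 * L) with hadef
  have ha0 : 0 < a := by positivity
  have haL : a ≤ 1 / L := by
    rw [hadef, div_le_div_iff₀ (by positivity) hL0]; nlinarith
  have ha4 : a ≤ 1 / 4 := haL.trans (one_div_le_one_div_of_le (by norm_num) hL)
  have hC2 : 0 ≤ C2 := (norm_nonneg _).trans (AA_line_le 0)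
  -- the zero-free rectangle
  have hR : ∀ s : ℂ, 1 - a ≤ s.re → s.re ≤ 2 → |s.im| ≤ H →
      riemannZeta₁ s ≠ 0 ∧ ‖deriv riemannZeta₁ s / riemannZeta₁ s‖ ≤ C * (3 * L) := by
    intro s h1 h2 h3
    have h4 := ell_le_three hL (h3.trans hHL)
    have h5 := one_le_ell s.im
    have h6 : a ≤ c / ell s.im := by
      rw [hadef]; exact div_le_div_of_nonneg_left hc0.le (by linarith) h4
    obtain ⟨k1, k2⟩ := hZ s (by linarith) h2
    exact ⟨k1, k2.trans (by gcongr)⟩
  have hR' : ∀ σ t : ℝ, 1 - a ≤ σ → σ ≤ 2 → |t| ≤ H →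
      riemannZeta₁ (σ + t * I) ≠ 0 ∧
        ‖deriv riemannZeta₁ (σ + t * I) / riemannZeta₁ (σ + t * I)‖ ≤ C * (3 * L) := by
    intro σ t h1 h2 h3
    exact hR _ (by simpa using h1) (by simpa using h2) (by simpa using h3)
  have hE1 : 1 ≤ Real.exp (2 * L) := Real.one_le_exp (by linarith)
  have hE4 : 4 ≤ Real.exp (2 * L) := by have := Real.add_one_le_exp (2 * L); linarith
  have hH4 : H + 4 ≤ 2 * Real.exp (2 * L) := by linarith
  have hH42 : (H + 4) ^ 2 ≤ 4 * Real.exp (4 * L) := by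
    have e : Real.exp (4 * L) = Real.exp (2 * L) ^ 2 := by
      rw [← Real.exp_nat_mul]; congr 1; push_cast; ring
    calc (H + 4) ^ 2 ≤ (2 * Real.exp (2 * L)) ^ 2 := pow_le_pow_left₀ (by linarith) hH4 2
      _ = _ := by rw [e]; ring
  have hH44 : (H + 4) ^ 4 ≤ 16 * Real.exp (8 * L) := by
    have e : Real.exp (8 * L) = Real.exp (2 * L) ^ 4 := by
      rw [← Real.exp_nat_mul]; congr 1; push_cast; ring
    calc (H + 4) ^ 4 ≤ (2 * Real.exp (2 * L)) ^ 4 := pow_le_pow_left₀ (by linarith) hH4 4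
      _ = _ := by rw [e]; ring
  -- the tails
  have t1 := VI_tail AA (X := X) (B := C2) hT hH0 (by
      refine continuous_iff_continuousAt.2 fun t => ?_
      have h1 : ContinuousAt (fun t : ℝ => ((2 : ℝ) : ℂ) + t * I) t := by fun_prop
      exact ContinuousAt.comp (f := fun t : ℝ => ((2 : ℝ) : ℂ) + t * I)
        (AA_diffAt (z1_ne_of_one_lt (by simp))).continuousAt h1)
    (fun t => by simpa using AA_line_le t)
  -- first shift
  have t2 := VI_shift AA (X := X) (T := T) (H := H) (σa := 1 - a) (σb := 2)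
    (B := (3 * C + 52) * Real.exp X) (by linarith) hT hH0 (by linarith) (by linarith) le_rfl
    (by
      intro s hs
      rw [Complex.mem_reProdIm] at hs
      exact (AA_diffAt (hR s hs.1.1 hs.1.2 (abs_le.2 hs.2)).1).differentiableWithinAt)
    (by
      have k : ∀ σ y : ℝ, 1 - a ≤ σ → σ ≤ 2 → |y| = H →
          ‖AA (σ + y * I)‖ ≤ (3 * C + 52) * Real.exp X := by
        intro σ y h1 h2 h3
        have k1 := (hR' σ y h1 h2 h3.le).2
        have k2 := z0_bd (σ := σ) (y := y) (H := H) (by linarith) h2 (by rw [h3]; exact hH1) h3.le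
        have k3 : Real.exp (4 * L) ≤ Real.exp X := Real.exp_le_exp.2 (by linarith)
        have k4 : L ≤ Real.exp X := by have := Real.add_one_le_exp X; linarith
        unfold AA
        refine (norm_sub_le _ _).trans ?_
        rw [norm_neg]
        have k5 : C * (3 * L) ≤ C * (3 * Real.exp X) := by gcongr
        linarith
      intro σ h1 h2
      exact ⟨k σ H h1 h2 (abs_of_nonneg hH0), k σ (-H) h1 h2 (by rw [abs_neg, abs_of_nonneg hH0])⟩)
  -- type I terms
  set D : ℝ := 22400 * (CM + 1) ^ 2 with hD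
  have hD0 : 0 ≤ D := by positivity
  have hBB : ∀ σ t : ℝ, 3 / 4 ≤ σ → σ ≤ 2 → |t| ≤ H → 1 / 4 ≤ ‖(σ : ℂ) + t * I - 1‖ →
      ‖BB M (σ + t * I)‖ ≤ D * Real.exp (20 * L) := by
    intro σ t h1 h2 h3 h4
    refine (BB_bd hMb h1 h2 h3 h4).trans ?_
    have e6 : 1 ≤ Real.exp (6 * L) := Real.one_le_exp (by linarith)
    have k1 : CM * Real.exp (6 * L) + 1 ≤ (CM + 1) * Real.exp (6 * L) := by linarith
    have k2 : (CM * Real.exp (6 * L) + 1) ^ 2 ≤ ((CM + 1) * Real.exp (6 * L)) ^ 2 :=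
      pow_le_pow_left₀ (by positivity) k1 2
    have e : Real.exp (20 * L) = Real.exp (6 * L) ^ 2 * Real.exp (8 * L) := by
      rw [← Real.exp_nat_mul, ← Real.exp_add]; congr 1; push_cast; ring
    calc 1400 * (CM * Real.exp (6 * L) + 1) ^ 2 * (H + 4) ^ 4
        ≤ 1400 * ((CM + 1) * Real.exp (6 * L)) ^ 2 * (16 * Real.exp (8 * L)) := by gcongr
      _ = _ := by rw [e, hD]; ring
  have t3 := VI_shift (BB M) (X := X) (T := T) (H := H) (σa := 3 / 4) (σb := 1 - a)
    (B := D * Real.exp (20 * L)) (by linarith) hT hH0 (by norm_num) (by linarith) (by linarith)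
    (by
      intro s hs
      rw [Complex.mem_reProdIm] at hs
      refine (BB_diffAt hMd ?_).differentiableWithinAt
      rintro rfl
      have := hs.1.2
      simp at this
      linarith)
    (by
      intro σ h1 h2
      have e1 : |H| = H := abs_of_nonneg hH0
      have e2 : |(-H)| = H := by rw [abs_neg, e1]
      refine ⟨hBB σ H h1 (by linarith) e1.le ?_, hBB σ (-H) h1 (by linarith) e2.le ?_⟩
      · have := one_le_norm_hor (σ := σ) (y := H) (by rw [e1]; exact hH1)
        linarith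
      · have := one_le_norm_hor (σ := σ) (y := -H) (by rw [e2]; exact hH1)
        linarith)
  have t4 : ‖VI (BB M) X T H (3 / 4)‖ ≤ 6 * D * Real.exp (-(X / 8)) := by
    have k1 : ‖VI (BB M) X T H (3 / 4)‖ ≤
        (D * Real.exp (20 * L) * (3 * Real.exp (-(X / 4)))) * |H - -H| := by
      unfold VI
      apply intervalIntegral.norm_integral_le_of_norm_le_const
      intro t ht
      rw [Set.uIoc_of_le (by linarith)] at ht
      have ht' : |t| ≤ H := abs_le.2 ⟨ht.1.le, ht.2⟩
      have k2 := hBB (3 / 4) t le_rfl (by norm_num) ht' (by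
        have := abs_re_le_norm_line (3 / 4) t
        norm_num [abs_of_neg] at this ⊢
        exact this)
      have k3 := norm_Wt_le (X := X) (σ := 3 / 4) t hT (by norm_num [abs_le])
      have k4 : Real.exp (-(t ^ 2 / T ^ 2)) ≤ 1 := by
        apply Real.exp_le_one_iff.2
        have : 0 ≤ t ^ 2 / T ^ 2 := by positivity
        linarith
      have e : (3 / 4 - 1) * X = -(X / 4) := by ring
      rw [e] at k3
      rw [norm_mul]
      refine mul_le_mul k2 (k3.trans ?_) (norm_nonneg _) (by positivity)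
      calc 3 * Real.exp (-(X / 4)) * Real.exp (-(t ^ 2 / T ^ 2)) ≤ 3 * Real.exp (-(X / 4)) * 1 := by
            gcongr
        _ = _ := mul_one _
    have e1 : |H - -H| = 2 * H := by rw [abs_of_nonneg (by linarith)]; ring
    rw [e1] at k1
    refine k1.trans ?_
    have k5 : Real.exp (20 * L) * Real.exp (-(X / 4)) * Real.exp (2 * L) ≤ Real.exp (-(X / 8)) := by
      rw [← Real.exp_add, ← Real.exp_add]
      apply Real.exp_le_exp.2
      linarith
    calc D * Real.exp (20 * L) * (3 * Real.exp (-(X / 4))) * (2 * H)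
        ≤ D * Real.exp (20 * L) * (3 * Real.exp (-(X / 4))) * (2 * Real.exp (2 * L)) := by gcongr
      _ = 6 * D * (Real.exp (20 * L) * Real.exp (-(X / 4)) * Real.exp (2 * L)) := by ring
      _ ≤ _ := by gcongr
  -- the main error term
  have hne : ∀ t : ℝ, (((1 - a : ℝ) : ℂ)) + t * I ≠ 1 := line_ne_one (by linarith)
  have t5 : ‖VI AA X T H (1 - a) - VI (BB M) X T H (1 - a)‖ ≤
      3 * (3 * C + 3 / c) * (3 * CM / c) * Real.exp (-(c * u / 3)) := by
    have cW : ContinuousOn (fun t : ℝ => Wt X T (((1 - a : ℝ) : ℂ) + t * I)) (Set.uIcc (-H) H) :=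
      cont_line hH0 (fun t _ => Wt_diff X T _)
    have cA : ContinuousOn (fun t : ℝ => AA (((1 - a : ℝ) : ℂ) + t * I)) (Set.uIcc (-H) H) :=
      cont_line hH0 (fun t ht => AA_diffAt (hR' (1 - a) t le_rfl (by linarith) ht).1)
    have cB : ContinuousOn (fun t : ℝ => BB M (((1 - a : ℝ) : ℂ) + t * I)) (Set.uIcc (-H) H) :=
      cont_line hH0 (fun t _ => BB_diffAt hMd (hne t))
    have cG : ContinuousOn (fun t : ℝ => riemannZeta (((1 - a : ℝ) : ℂ) + t * I) *
        M (((1 - a : ℝ) : ℂ) + t * I) - 1) (Set.uIcc (-H) H) :=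
      cont_line (f := fun s => riemannZeta s * M s - 1) hH0 (fun t _ =>
        ((differentiableAt_riemannZeta (hne t)).mul (hMd _)).sub_const 1)
    have iA : IntervalIntegrable (fun t : ℝ => AA (((1 - a : ℝ) : ℂ) + t * I) *
        Wt X T (((1 - a : ℝ) : ℂ) + t * I)) volume (-H) H := (cA.mul cW).intervalIntegrable
    have iB : IntervalIntegrable (fun t : ℝ => BB M (((1 - a : ℝ) : ℂ) + t * I) *
        Wt X T (((1 - a : ℝ) : ℂ) + t * I)) volume (-H) H := (cB.mul cW).intervalIntegrable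
    unfold VI
    rw [← intervalIntegral.integral_sub iA iB]
    set K : ℝ := (C * (3 * L) + 1 / a) * (3 * Real.exp (-(c * u / 3))) with hK
    have hK0 : 0 ≤ K := by positivity
    have cg : ContinuousOn (fun t : ℝ => K * (‖riemannZeta (((1 - a : ℝ) : ℂ) + t * I) *
        M (((1 - a : ℝ) : ℂ) + t * I) - 1‖ ^ 2 * Real.exp (-(t ^ 2 / T ^ 2)))) (Set.uIcc (-H) H) :=
      continuousOn_const.mul ((cG.norm.pow 2).mul (by fun_prop))
    refine (intervalIntegral.norm_integral_le_of_norm_le (by linarith) ?_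
      cg.intervalIntegrable).trans ?_
    · refine Eventually.of_forall fun t ht => ?_
      have ht' : |t| ≤ H := abs_le.2 ⟨ht.1.le, ht.2⟩
      obtain ⟨k1, k2⟩ := hR' (1 - a) t le_rfl (by linarith) ht'
      rw [← sub_mul, AA_sub_BB M (hne t) k1, norm_mul, norm_mul, norm_neg, norm_pow]
      have k3 := norm_Wt_le (X := X) (σ := 1 - a) t hT (by rw [abs_le]; constructor <;> linarith)
      have e : (1 - a - 1) * X = -(c * u / 3) := by
        rw [hadef, hXe]; field_simp; ring
      rw [e] at k3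
      have k4 : ‖(((1 - a : ℝ) : ℂ) + t * I - 1)⁻¹‖ ≤ 1 / a := by
        rw [norm_inv, one_div]
        apply inv_anti₀ ha0
        have := abs_re_le_norm_line (1 - a) t
        have e2 : |1 - a - 1| = a := by
          rw [show 1 - a - 1 = -a by ring, abs_neg, abs_of_pos ha0]
        rwa [e2] at this
      have k5 := (norm_sub_le _ _).trans (add_le_add k2 k4)
      calc _ ≤ (C * (3 * L) + 1 / a) * ‖riemannZeta (((1 - a : ℝ) : ℂ) + t * I) *
            M (((1 - a : ℝ) : ℂ) + t * I) - 1‖ ^ 2 *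
            (3 * Real.exp (-(c * u / 3)) * Real.exp (-(t ^ 2 / T ^ 2))) := by gcongr
        _ = _ := by rw [hK]; ring
    · rw [intervalIntegral.integral_const_mul]
      have k6 := hM2 a T H ha0 haL hT hTL hH0 hHL
      calc _ ≤ K * (CM / (L ^ 2 * a)) := by gcongr
        _ = _ := by
          rw [hK, hadef]
          field_simp
  -- collecting
  have g1 : T * Real.exp X * Real.exp (-(X ^ 2 / 2)) ≤ Real.exp (-(X / 8)) := by
    have : T ≤ Real.exp X := hTL.trans (Real.exp_le_exp.2 (by linarith))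
    calc T * Real.exp X * Real.exp (-(X ^ 2 / 2))
        ≤ Real.exp X * Real.exp X * Real.exp (-(X ^ 2 / 2)) := by gcongr
      _ ≤ _ := by
        rw [← Real.exp_add, ← Real.exp_add]
        apply Real.exp_le_exp.2
        nlinarith
  have g2 : Real.exp X * Real.exp X * Real.exp (-(X ^ 2)) ≤ Real.exp (-(X / 8)) := by
    rw [← Real.exp_add, ← Real.exp_add]
    apply Real.exp_le_exp.2
    nlinarith
  have g3 : Real.exp (20 * L) ≤ Real.exp X := Real.exp_le_exp.2 (by linarith)
  rw [hHT] at t1 t2 t3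
  have t1' : 9 * C2 * T * Real.exp X * Real.exp (-(X ^ 2 / 2)) ≤ 9 * C2 * Real.exp (-(X / 8)) := by
    calc _ = 9 * C2 * (T * Real.exp X * Real.exp (-(X ^ 2 / 2))) := by ring
      _ ≤ _ := by gcongr
  have t2' : 12 * ((3 * C + 52) * Real.exp X) * Real.exp X * Real.exp (-(X ^ 2)) ≤
      12 * (3 * C + 52) * Real.exp (-(X / 8)) := by
    calc _ = 12 * (3 * C + 52) * (Real.exp X * Real.exp X * Real.exp (-(X ^ 2))) := by ring
      _ ≤ _ := by gcongr
  have t3' : 12 * (D * Real.exp (20 * L)) * Real.exp X * Real.exp (-(X ^ 2)) ≤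
      12 * D * Real.exp (-(X / 8)) := by
    calc _ ≤ 12 * (D * Real.exp X) * Real.exp X * Real.exp (-(X ^ 2)) := by gcongr
      _ = 12 * D * (Real.exp X * Real.exp X * Real.exp (-(X ^ 2))) := by ring
      _ ≤ _ := by gcongr
  have e2 : (((2 : ℝ) : ℂ)) = 2 := by norm_num
  rw [e2] at t1
  set J := ∫ t : ℝ, AA (2 + t * I) * Wt X T (2 + t * I) with hJ
  have e : J = (J - VI AA X T H 2) + (VI AA X T H 2 - VI AA X T H (1 - a)) +
      (VI AA X T H (1 - a) - VI (BB M) X T H (1 - a)) +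
      (VI (BB M) X T H (1 - a) - VI (BB M) X T H (3 / 4)) + VI (BB M) X T H (3 / 4) := by ring
  rw [e]
  have n1 := norm_add_le ((J - VI AA X T H 2) + (VI AA X T H 2 - VI AA X T H (1 - a)) +
      (VI AA X T H (1 - a) - VI (BB M) X T H (1 - a)) +
      (VI (BB M) X T H (1 - a) - VI (BB M) X T H (3 / 4))) (VI (BB M) X T H (3 / 4))
  have n2 := norm_add_le ((J - VI AA X T H 2) + (VI AA X T H 2 - VI AA X T H (1 - a)) +
      (VI AA X T H (1 - a) - VI (BB M) X T H (1 - a)))
      (VI (BB M) X T H (1 - a) - VI (BB M) X T H (3 / 4))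
  have n3 := norm_add_le ((J - VI AA X T H 2) + (VI AA X T H 2 - VI AA X T H (1 - a)))
      (VI AA X T H (1 - a) - VI (BB M) X T H (1 - a))
  have n4 := norm_add_le (J - VI AA X T H 2) (VI AA X T H 2 - VI AA X T H (1 - a))
  linarith

theorem main (hz : S_ZFR) (hm : S_MOL) : S_MAIN := by
  obtain ⟨c, C, hc0, hc4, hC, hZ⟩ := hz
  obtain ⟨CM, hCM, hM⟩ := hm
  set K0 : ℝ := 3 * (3 * C + 3 / c) * (3 * CM / c) with hK0
  have hK0p : 0 < K0 := by positivity
  set u : ℝ := 200 + 60 * K0 / c with hu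
  have hu1 : 0 ≤ 60 * K0 / c := by positivity
  have hu200 : 200 ≤ u := by linarith
  have hu0 : 0 < u := by linarith
  have k1 : K0 * Real.exp (-(c * u / 3)) ≤ 1 / 20 := by
    have h1 : 20 * K0 ≤ c * u / 3 := by
      rw [hu]
      have : c * (200 + 60 * K0 / c) / 3 = 200 * c / 3 + 20 * K0 := by field_simp; ring
      rw [this]
      linarith
    have h2 := Real.add_one_le_exp (c * u / 3)
    rw [Real.exp_neg, ← div_eq_mul_inv, div_le_iff₀ (Real.exp_pos _)]
    linarith
  set D : ℝ := 9 * C2 + 12 * (3 * C + 52) + 18 * (22400 * (CM + 1) ^ 2) with hD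
  refine ⟨u, by linarith, ?_⟩
  have e1 : ∀ᶠ X : ℝ in atTop, 4 ≤ X / u :=
    (tendsto_id.atTop_div_const hu0).eventually_ge_atTop 4
  have e2 : ∀ᶠ X : ℝ in atTop, X ≤ Real.exp (X / u) := by
    filter_upwards [eventually_ge_atTop (2 * u ^ 2), eventually_ge_atTop (0 : ℝ)] with X h1 h0
    have h2 := Real.quadratic_le_exp_of_nonneg (x := X / u) (by positivity)
    have h3 : X ≤ (X / u) ^ 2 / 2 := by
      rw [div_pow, div_div, le_div_iff₀ (by positivity)]
      nlinarith
    have h4 : 0 ≤ X / u := by positivity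
    linarith
  have e3 : ∀ᶠ X : ℝ in atTop, D * Real.exp (-(X / 8)) ≤ 1 / 20 := by
    have h1 : Tendsto (fun X : ℝ => D * Real.exp (-(X / 8))) atTop (nhds (D * 0)) :=
      (Real.tendsto_exp_neg_atTop_nhds_zero.comp
        (tendsto_id.atTop_div_const (by norm_num : (0 : ℝ) < 8))).const_mul D
    rw [mul_zero] at h1
    exact h1.eventually_le_const (by norm_num)
  filter_upwards [e1, e2, e3] with X h1 h2 h3 T hT hTL
  obtain ⟨M, hMd, hMb, hM2⟩ := hM (X / u) h1
  have hcore := core hc0 hc4 hC hCM hZ hu200 h1 h2 hT hTL hMd hMb hM2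
  have hT0 : 0 < T := by linarith
  obtain ⟨-, hs⟩ := sums_eq X T hT0
  have hX : 200 * (X / u) ≤ X := by
    have : X = u * (X / u) := by field_simp
    nlinarith
  have hx : 2 * T ≤ Real.exp X := by
    have h4 : Real.exp X = Real.exp (X - X / u) * Real.exp (X / u) := by
      rw [← Real.exp_add]; congr 1; ring
    have h5 := Real.add_one_le_exp (X - X / u)
    rw [h4]
    exact mul_le_mul (by linarith) hTL hT0.le (Real.exp_pos _).le
  have hlow := sum_one_lower hT hx
  have hre := (Complex.abs_re_le_norm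
    (∫ t : ℝ, AA (2 + t * I) * Wt X T (2 + t * I))).trans hcore
  rw [← hs, abs_le] at hre
  set S := ∑' n : ℕ, ArithmeticFunction.vonMangoldt n / (n : ℝ) * EE X T n with hS
  have hS0 : 0 ≤ S := tsum_nonneg fun n => by
    unfold EE
    have := ArithmeticFunction.vonMangoldt_nonneg (n := n)
    positivity
  have h6 : 1 / 5 ≤ T * Real.sqrt Real.pi * S := by linarith [hre.1]
  have h7 : Real.sqrt Real.pi ≤ 2 := by
    rw [Real.sqrt_le_iff]
    constructor
    · norm_num
    · linarith [Real.pi_lt_four]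
  have h8 : T * Real.sqrt Real.pi * S ≤ T * 2 * S := by gcongr
  show 1 / 20 ≤ T * S
  linarith

end

end Pool.Agent.H369Z.Hoh
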