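import Mathlib
import Pool.Agent.H369Z.Hoh.T4c
import Pool.Agent.H216Z.ZFR
import Pool.Agent.H168Z.QF.Main
import Pool.Agent.H519Z.DP.C
import Pool.Agent.H480Z.Mol
import Pool.Agent.H78Z.Hoh.T5

/-! Primes in short intervals (Hoheisel), unconditionally. -/

set_option autoImplicit false

namespace Pool.Agent.H369Z.Hoh

theorem hoheisel : S_HOH :=
  Pool.Agent.H78Z.Hoh.hoh (main Pool.Agent.H216Z.ZFR.zfr
    (Pool.Agent.H480Z.Mol.mol Pool.Agent.H168Z.QF.qf
      (Pool.Agent.H519Z.DP.dp Pool.Agent.H168Z.QF.qf)))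

end Pool.Agent.H369Z.Hoh
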